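import Pool.Agent.H60.KZ.St3

/-!
# Graded Frobenius algebras with finitely generated cohomology: Koszul = finite regularity

Let `B` be a finite dimensional positively graded algebra over an infinite field `k`, with `B_0`
semisimple and with a homogeneous Frobenius form.  Suppose that `B` satisfies the finite
generation condition (Fg): there are commuting natural transformations `X ⟶ X⟨-e⟩[d]` of the
derived category of graded modules (those with `e = d` central), over which the `Ext` groups of
finite dimensional modules concentrated in one degree are finitely generated.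
Then `B` is Koszul if and only if it has finite Castelnuovo-Mumford regularity.
-/

universe u

namespace Pool.Agent.Results.MP_7bff58_al.FiniteRegularity

open CategoryTheory H60.KZ

/-- A graded Frobenius algebra with (Fg) is Koszul if and only if it has finite regularity. -/
theorem result {k : Type u} [Field k] [Infinite k]
    -- the positively graded finite dimensional algebra `B`, with `B_0` semisimple
    {B : Type u} [Ring B] [Algebra k B] [Module.Finite k B]
    (ℬ : ℤ → Submodule k B) [GradedAlgebra ℬ] [PosGr ℬ] [IsSemisimpleRing (ℬ 0)]
    -- a homogeneous Frobenius form of degree `s`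
    (s : ℕ) (lam : B →ₗ[k] k) (hfrob : GrFrob ℬ s lam)
    -- commuting natural transformations `ζ a : X ⟶ X⟨-e_a⟩[d]` of the derived category
    (d : ℕ) (hd : 1 ≤ d) {c : ℕ} (e : Fin c → ℤ) (ζ : ∀ a, 𝟭 (DG ℬ) ⟶ Phi ℬ (e a) d)
    (hcomm : ∀ a b, Comm (ζ a) (ζ b))
    -- those of bidegree `(d, -d)` are compatible with `⟨-d⟩[d]` and with the shift functor `[1]`
    (hcent : ∀ a, e a = d → IsCent (kap ℬ (e a) d) (ζ a))
    -- finite generation
    (hfg : FgOver ζ) :
    Koszul ℬ ↔ Reg ℬ :=
  st3_iff hfrob d hd e ζ hcent hcomm hfg

end Pool.Agent.Results.MP_7bff58_al.FiniteRegularity
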