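import Pool.Agent.H60.KZ.St3

/-!
# Descent of Koszulity along an exact graded functor (from regular to singular blocks)

Let `B` be a finite dimensional positively graded Frobenius algebra over an infinite field
satisfying the finite generation condition (Fg), `A` a Koszul algebra, and let `F` be an exact
functor from graded `B`-modules to graded `A`-modules which kills no nonzero module, preserves
finite dimension, and sends finite dimensional projective modules generated in degree `j` to
projective modules generated in degree `j`.  Then `B` is Koszul.  For `B` a singular block and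
`A` a regular block of the small quantum group such a functor is graded translation out of the
wall.
-/

universe u

namespace Pool.Agent.Results.MP_7bff58_al.KoszulDescent

open CategoryTheory CategoryTheory.Limits H60.KZ

/-- Koszulity descends along an exact functor `F : GrM B ⥤ GrM A` which preserves projective
modules generated in degree `j` and kills no nonzero module, if `B` is graded Frobenius with
(Fg). -/
theorem result {k : Type u} [Field k] [Infinite k]
    -- the positively graded finite dimensional algebra `B`, with `B_0` semisimple
    {B : Type u} [Ring B] [Algebra k B] [Module.Finite k B]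
    (ℬ : ℤ → Submodule k B) [GradedAlgebra ℬ] [PosGr ℬ] [IsSemisimpleRing (ℬ 0)]
    -- a homogeneous Frobenius form of degree `s`
    (s : ℕ) (lam : B →ₗ[k] k) (hfrob : GrFrob ℬ s lam)
    -- commuting natural transformations `ζ a : X ⟶ X⟨-e_a⟩[d]` of the derived category
    (d : ℕ) (hd : 1 ≤ d) {c : ℕ} (e : Fin c → ℤ) (ζ : ∀ a, 𝟭 (DG ℬ) ⟶ Phi ℬ (e a) d)
    (hcomm : ∀ a b, Comm (ζ a) (ζ b))
    -- those of bidegree `(d, -d)` are compatible with `⟨-d⟩[d]` and with the shift functor `[1]`
    (hcent : ∀ a, e a = d → IsCent (kap ℬ (e a) d) (ζ a))
    -- finite generation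
    (hfg : FgOver ζ)
    -- the Koszul algebra `A`
    {A : Type u} [Ring A] [Algebra k A] [Module.Finite k A]
    (𝒜 : ℤ → Submodule k A) [GradedAlgebra 𝒜] [PosGr 𝒜] [IsSemisimpleRing (𝒜 0)]
    (hA : Koszul 𝒜)
    -- the exact functor
    (F : GrM ℬ ⥤ GrM 𝒜) [PreservesFiniteLimits F] [PreservesFiniteColimits F]
    (hproj : ∀ P j, Fd P → Projective P → GenIn P j → Projective (F.obj P) ∧ GenIn (F.obj P) j)
    (hfaith : ∀ M, IsZero (F.obj M) → IsZero M) (hfd : ∀ M, Fd M → Fd (F.obj M)) :
    Koszul ℬ :=
  (st3_iff hfrob d hd e ζ hcent hcomm hfg).2 (st3_reg hA F hproj hfaith hfd)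

end Pool.Agent.Results.MP_7bff58_al.KoszulDescent
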