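import Pool.Agent.H37.UK.Fin

/-!
# Koszulity of singular blocks from regular blocks, without any grading on the singular block

`A` is a finite dimensional Koszul algebra (a regular block), `B` a finite dimensional algebra
without any grading (a singular block), `k` of characteristic `0`.  Suppose that `B` embeds into a
corner `e A e`, `e = ι 1 ∈ A_0`, such that `e A e` is the direct sum of the `x l * ι B`, with
`x 0 = e` and elements `x l` (`l ≠ 0`) which are central in `e A e` and nilpotent, and that `A e` is
a finitely generated projective right `B`-module (structure `Desc`).  For `u_ζ` this is the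
isomorphism `End (T' P) = End (P) ⊗ S` over the invariants of `S`, for translation `T'` out of the
wall.  Suppose that `B` is a connected symmetric algebra with (Fg).  Then `B` is Koszul: it has a
positive grading with semisimple degree zero part for which it is Koszul.
-/

universe u

namespace Pool.Agent.Results.MP_7bff58_al.UngradedDescent

open CategoryTheory H60.KZ H37.UK

/-- Koszulity descends from `A` to the ungraded algebra `B`. -/
theorem result {k : Type u} [Field k] [CharZero k]
    -- the Koszul algebra `A`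
    {A : Type u} [Ring A] [Algebra k A] [Module.Finite k A]
    (𝒜 : ℤ → Submodule k A) [GradedAlgebra 𝒜] [PosGr 𝒜] [IsSemisimpleRing (𝒜 0)]
    (hA : Koszul 𝒜)
    -- the algebra `B`, embedded into the corner of the idempotent `D.ι 1` of `A`
    {B : Type u} [Ring B] [Algebra k B] {m n : ℕ} (D : Desc k A B m n) (he : D.ι 1 ∈ 𝒜 0)
    -- a symmetrising form of `B`
    (tr : B →ₗ[k] k) (hsym : ∀ a b, tr (a * b) = tr (b * a))
    (hnd : ∀ a, (∀ b, tr (a * b) = 0) → a = 0)
    -- `B` is connected
    (hconn : ∀ z : B, z * z = z → (∀ b, z * b = b * z) → z = 0 ∨ z = 1)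
    -- finite generation of the cohomology of `B`
    (hfg : ∀ (ℬ : ℤ → Submodule k B) [GradedAlgebra ℬ] [PosGr ℬ] [IsSemisimpleRing (ℬ 0)],
      ∃ (d c : ℕ) (e : Fin c → ℤ) (ζ : ∀ a, 𝟭 (DG ℬ) ⟶ Phi ℬ (e a) d), 1 ≤ d ∧
        (∀ a, e a = d → IsCent (kap ℬ (e a) d) (ζ a)) ∧ (∀ a b, Comm (ζ a) (ζ b)) ∧
        FgOver ζ) :
    ∃ (ℬ : ℤ → Submodule k B) (_ : GradedAlgebra ℬ) (_ : PosGr ℬ),
      IsSemisimpleRing (ℬ 0) ∧ Koszul ℬ :=
  descent 𝒜 hA D he tr hsym hnd hconn hfg

end Pool.Agent.Results.MP_7bff58_al.UngradedDescent
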